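import Mathlib

/-! Definitions for graph functionality (Alecu, Atminas, Lozin). -/

set_option autoImplicit false

namespace Pool.Agent.Work.MP_42f001_co

open Classical in
/-- `y` is a function of the vertex set `S` (with `y ∉ S`): some Boolean function `f` of the
adjacencies to the vertices of `S` gives the adjacency to `y`, for every `z ∉ S ∪ {y}`. -/
def IsFunctionOf {V : Type} (G : SimpleGraph V) (y : V) (S : Finset V) : Prop :=
  y ∉ S ∧ ∃ f : (S → Bool) → Bool, ∀ z : V, z ≠ y → z ∉ S →
    decide (G.Adj y z) = f (fun x => decide (G.Adj x z))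

/-- `fun(y)`: the least `k` such that `y` is a function of some `k` vertices. -/
noncomputable def vertexFun {V : Type} (G : SimpleGraph V) (y : V) : ℕ :=
  sInf {k : ℕ | ∃ S : Finset V, S.card = k ∧ IsFunctionOf G y S}

/-- `fun(G)`: the maximum over nonempty induced subgraphs `H` of the minimum over vertices `y`
of `H` of the functionality of `y` in `H`. -/
noncomputable def graphFun {V : Type} (G : SimpleGraph V) : ℕ :=
  ⨆ s : {s : Set V // s.Nonempty}, ⨅ y : s.1, vertexFun (G.induce s.1) y

/-- `M` is a module: every vertex outside `M` is adjacent to all or to none of `M`. -/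
def IsModule {V : Type} (G : SimpleGraph V) (M : Set V) : Prop :=
  ∀ v, v ∉ M → (∀ u ∈ M, G.Adj v u) ∨ (∀ u ∈ M, ¬ G.Adj v u)

/-- `G` is prime: all its modules are trivial. -/
def IsPrimeGraph {V : Type} (G : SimpleGraph V) : Prop :=
  ∀ M : Set V, IsModule G M → M = ∅ ∨ M = Set.univ ∨ ∃ v, M = {v}

/-- A class of finite graphs (given on the vertex sets `Fin n`) is hereditary if it is closed
under induced subgraphs (up to isomorphism). -/
def IsHereditary (X : ∀ n : ℕ, SimpleGraph (Fin n) → Prop) : Prop :=
  ∀ (m n : ℕ) (H : SimpleGraph (Fin m)) (G : SimpleGraph (Fin n)), Nonempty (H ↪g G) → X n G → X m H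

end Pool.Agent.Work.MP_42f001_co
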