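import Pool.Agent.Work.MP_42f001_co.Defs

set_option autoImplicit false

namespace Pool.Agent.Work.MP_42f001_co

open Classical

/-- Combinatorial form of being a function of `S` inside the vertex set `T`. -/
def FunOn {V : Type} (G : SimpleGraph V) (T : Set V) (y : V) (S : Finset V) : Prop :=
  ∀ z z', z ∈ T → z' ∈ T → z ≠ y → z' ≠ y → z ∉ S → z' ∉ S →
    (∀ x ∈ S, G.Adj x z ↔ G.Adj x z') → (G.Adj y z ↔ G.Adj y z')

theorem isFunctionOf_iff {V : Type} (G : SimpleGraph V) (y : V) (S : Finset V) :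
    IsFunctionOf G y S ↔ y ∉ S ∧ FunOn G Set.univ y S := by
  constructor
  · rintro ⟨hy, f, hf⟩
    refine ⟨hy, fun z z' _ _ hz hz' hzS hzS' h => ?_⟩
    have h1 := hf z hz hzS
    have h2 := hf z' hz' hzS'
    have h3 : (fun x : S => decide (G.Adj x z)) = (fun x : S => decide (G.Adj x z')) := by
      funext x
      exact decide_eq_decide.mpr (h x x.2)
    rw [h3, ← h2] at h1
    exact decide_eq_decide.mp h1
  · rintro ⟨hy, h⟩
    refine ⟨hy, fun p => decide (∃ z, z ≠ y ∧ z ∉ S ∧ (fun x : S => decide (G.Adj x z)) = p ∧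
      G.Adj y z), fun z hz hzS => ?_⟩
    apply decide_eq_decide.mpr
    constructor
    · intro ha
      exact ⟨z, hz, hzS, rfl, ha⟩
    · rintro ⟨z', hz', hzS', hp, ha⟩
      refine (h z z' trivial trivial hz hz' hzS hzS' ?_).mpr ha
      intro x hx
      have := congrFun hp ⟨x, hx⟩
      exact (decide_eq_decide.mp this).symm

/-- The property that in every nonempty subset of `M` some vertex is a function of at most
`k` other vertices of that subset. -/
def Small {V : Type} (G : SimpleGraph V) (M : Set V) (k : ℕ) : Prop :=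
  ∀ T : Set V, T ⊆ M → T.Nonempty → ∃ y ∈ T, ∃ S : Finset V, (S : Set V) ⊆ T ∧ y ∉ S ∧
    S.card ≤ k ∧ FunOn G T y S

theorem vertexFun_le_iff {V : Type} [Finite V] (G : SimpleGraph V) (y : V) (k : ℕ) :
    vertexFun G y ≤ k ↔ ∃ S : Finset V, y ∉ S ∧ S.card ≤ k ∧ FunOn G Set.univ y S := by
  have := Fintype.ofFinite V
  constructor
  · intro h
    have hne : {k : ℕ | ∃ S : Finset V, S.card = k ∧ IsFunctionOf G y S}.Nonempty := by
      refine ⟨_, Finset.univ.erase y, rfl, (isFunctionOf_iff G y _).mpr ⟨by simp, ?_⟩⟩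
      intro z z' _ _ hz _ hzS
      exact absurd (by simp [hz]) hzS
    obtain ⟨S, hS, hf⟩ := Nat.sInf_mem hne
    rw [isFunctionOf_iff] at hf
    exact ⟨S, hf.1, hS ▸ h, hf.2⟩
  · rintro ⟨S, hy, hk, hf⟩
    exact le_trans (Nat.sInf_le ⟨S, rfl, (isFunctionOf_iff G y S).mpr ⟨hy, hf⟩⟩) hk

theorem induce_le_iff {V : Type} [Finite V] (G : SimpleGraph V) (T : Set V) (y : T) (k : ℕ) :
    vertexFun (G.induce T) y ≤ k ↔
      ∃ S : Finset V, (S : Set V) ⊆ T ∧ (y : V) ∉ S ∧ S.card ≤ k ∧ FunOn G T y S := by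
  rw [vertexFun_le_iff]
  constructor
  · rintro ⟨S, hy, hk, hf⟩
    refine ⟨S.map (Function.Embedding.subtype _), ?_, ?_, by simpa using hk, ?_⟩
    · intro x hx
      simp only [Finset.coe_map, Function.Embedding.coe_subtype, Set.mem_image] at hx
      obtain ⟨a, _, rfl⟩ := hx
      exact a.2
    · intro h
      simp only [Finset.mem_map, Function.Embedding.coe_subtype] at h
      obtain ⟨a, ha, hay⟩ := h
      exact hy (Subtype.ext hay ▸ ha)
    · intro z z' hz hz' hzy hzy' hzS hzS' h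
      have := hf ⟨z, hz⟩ ⟨z', hz'⟩ trivial trivial (fun e => hzy (congrArg Subtype.val e))
        (fun e => hzy' (congrArg Subtype.val e))
        (fun e => hzS (Finset.mem_map.mpr ⟨_, e, rfl⟩))
        (fun e => hzS' (Finset.mem_map.mpr ⟨_, e, rfl⟩))
        (fun x hx => by simpa using h x (Finset.mem_map.mpr ⟨_, hx, rfl⟩))
      simpa using this
  · rintro ⟨S, hST, hy, hk, hf⟩
    refine ⟨S.subtype (· ∈ T), by simpa using hy, ?_, ?_⟩
    · rw [Finset.card_subtype]
      exact le_trans (Finset.card_filter_le _ _) hk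
    · intro z z' _ _ hzy hzy' hzS hzS' h
      have := hf z z' z.2 z'.2 (fun e => hzy (Subtype.ext e)) (fun e => hzy' (Subtype.ext e))
        (by simpa using hzS) (by simpa using hzS')
        (fun x hx => by simpa using h ⟨x, hST hx⟩ (by simpa using hx))
      simpa using this

theorem graphFun_le_iff {V : Type} [Finite V] (G : SimpleGraph V) (k : ℕ) :
    graphFun G ≤ k ↔ Small G Set.univ k := by
  unfold graphFun
  rw [ciSup_le_iff' (Set.finite_range _).bddAbove]
  constructor
  · intro h T _ hT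
    have h1 := h ⟨T, hT⟩
    have : Nonempty T := hT.to_subtype
    obtain ⟨y, hy⟩ : ∃ y : T, vertexFun (G.induce T) y = ⨅ y : T, vertexFun (G.induce T) y :=
      ciInf_mem _
    obtain ⟨S, hS⟩ := (induce_le_iff G T y k).mp (hy ▸ h1)
    exact ⟨y, y.2, S, hS⟩
  · intro h s
    obtain ⟨y, hy, S, hS⟩ := h s.1 (Set.subset_univ _) s.2
    exact le_trans (ciInf_le (OrderBot.bddBelow _) (⟨y, hy⟩ : s.1))
      ((induce_le_iff G s.1 ⟨y, hy⟩ k).mpr ⟨S, hS⟩)

theorem small_of_comap {V W : Type} (G : SimpleGraph V) (φ : W → V) (hφ : Function.Injective φ)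
    (k : ℕ) (h : Small (G.comap φ) Set.univ k) : Small G (Set.range φ) k := by
  intro T hT hne
  obtain ⟨y, hy, S, hST, hyS, hk, hf⟩ := h (φ ⁻¹' T) (Set.subset_univ _)
    (by obtain ⟨t, ht⟩ := hne; obtain ⟨w, rfl⟩ := hT ht; exact ⟨w, ht⟩)
  refine ⟨φ y, hy, S.map ⟨φ, hφ⟩, ?_, ?_, by simpa using hk, ?_⟩
  · intro x hx
    simp only [Finset.coe_map, Function.Embedding.coeFn_mk, Set.mem_image] at hx
    obtain ⟨a, ha, rfl⟩ := hx
    exact hST ha
  · simpa [hφ.eq_iff] using hyS
  · intro z z' hz hz' hzy hzy' hzS hzS' hh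
    obtain ⟨w, rfl⟩ := hT hz
    obtain ⟨w', rfl⟩ := hT hz'
    exact hf w w' hz hz' (fun e => hzy (e ▸ rfl)) (fun e => hzy' (e ▸ rfl))
      (fun e => hzS (Finset.mem_map.mpr ⟨_, e, rfl⟩))
      (fun e => hzS' (Finset.mem_map.mpr ⟨_, e, rfl⟩))
      (fun x hx => hh (φ x) (Finset.mem_map.mpr ⟨_, hx, rfl⟩))

/-- `D` dominates `M`. -/
def Dom {V : Type} (G : SimpleGraph V) (M : Set V) (D : Finset V) : Prop :=
  ∀ z ∈ M, z ∉ D → ∃ d ∈ D, G.Adj d z

/-- `D` dominates `M` in the complement. -/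
def CoDom {V : Type} (G : SimpleGraph V) (M : Set V) (D : Finset V) : Prop :=
  ∀ z ∈ M, z ∉ D → ∃ d ∈ D, ¬ G.Adj d z

/-- `M` is a module of the subgraph induced on `T`. -/
def ModIn {V : Type} (G : SimpleGraph V) (T M : Set V) : Prop :=
  ∀ v ∈ T, v ∉ M → (∀ u ∈ M, G.Adj v u) ∨ (∀ u ∈ M, ¬ G.Adj v u)

/-- The conclusion we want for the vertex set `T`. -/
def Good {V : Type} (G : SimpleGraph V) (T : Set V) (k : ℕ) : Prop :=
  ∃ y ∈ T, ∃ S : Finset V, (S : Set V) ⊆ T ∧ y ∉ S ∧ S.card ≤ k ∧ FunOn G T y S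

theorem Good.mono {V : Type} {G : SimpleGraph V} {T : Set V} {k l : ℕ} (h : Good G T k)
    (hkl : k ≤ l) : Good G T l := by
  obtain ⟨y, hy, S, h1, h2, h3, h4⟩ := h
  exact ⟨y, hy, S, h1, h2, h3.trans hkl, h4⟩

/-- Extending a function from a module to the whole set. -/
theorem extend {V : Type} (G : SimpleGraph V) (T M : Set V) (hmod : ModIn G T M)
    (y : V) (hy : y ∈ M) (S : Finset V) (hS : (S : Set V) ⊆ M) (hne : S.Nonempty)
    (hf : FunOn G M y S)
    (h0 : ∀ z ∈ M, z ≠ y → z ∉ S → (∀ x ∈ S, ¬ G.Adj x z) → ¬ G.Adj y z)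
    (h1 : ∀ z ∈ M, z ≠ y → z ∉ S → (∀ x ∈ S, G.Adj x z) → G.Adj y z) :
    FunOn G T y S := by
  obtain ⟨x0, hx0⟩ := hne
  have key : ∀ z z', z ∈ M → z' ∈ T → z' ∉ M → z ≠ y → z ∉ S →
      (∀ x ∈ S, G.Adj x z ↔ G.Adj x z') → (G.Adj y z ↔ G.Adj y z') := by
    intro z z' hz hz' hz'M hzy hzS h
    rcases hmod z' hz' hz'M with ha | ha
    · exact iff_of_true (h1 z hz hzy hzS (fun x hx => (h x hx).mpr (ha x (hS hx)).symm))
        (ha y hy).symm
    · exact iff_of_false (h0 z hz hzy hzS (fun x hx e => ha x (hS hx) ((h x hx).mp e).symm))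
        (fun e => ha y hy e.symm)
  intro z z' hz hz' hzy hzy' hzS hzS' h
  by_cases hzM : z ∈ M
  · by_cases hzM' : z' ∈ M
    · exact hf z z' hzM hzM' hzy hzy' hzS hzS' h
    · exact key z z' hzM hz' hzM' hzy hzS h
  · by_cases hzM' : z' ∈ M
    · exact (key z' z hzM' hz hzM hzy' hzS' (fun x hx => (h x hx).symm)).symm
    · have e1 : G.Adj y z ↔ G.Adj x0 z := by
        rcases hmod z hz hzM with ha | ha
        · exact iff_of_true (ha y hy).symm (ha x0 (hS hx0)).symm
        · exact iff_of_false (fun e => ha y hy e.symm) (fun e => ha x0 (hS hx0) e.symm)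
      have e2 : G.Adj y z' ↔ G.Adj x0 z' := by
        rcases hmod z' hz' hzM' with ha | ha
        · exact iff_of_true (ha y hy).symm (ha x0 (hS hx0)).symm
        · exact iff_of_false (fun e => ha y hy e.symm) (fun e => ha x0 (hS hx0) e.symm)
      rw [e1, e2]
      exact h x0 hx0

/-- One round of the argument. -/
theorem round {V : Type} (G : SimpleGraph V) (T M : Set V) (hMT : M ⊆ T) (hmod : ModIn G T M)
    (hM : M.Nontrivial) (k : ℕ) (hs : Small G M k) (D : Finset V) (hD : (D : Set V) ⊆ M) :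
    Good G T (D.card + k) ∨ ∃ D' : Finset V, (D' : Set V) ⊆ M ∧ D ⊆ D' ∧
      D'.card ≤ D.card + k + 1 ∧ ((Dom G M D' ∧ ¬ Dom G M D) ∨ (CoDom G M D' ∧ ¬ CoDom G M D)) := by
  by_cases hne : (M \ D).Nonempty
  · obtain ⟨y, hy, X, hX, hyX, hk, hf⟩ := hs (M \ D) Set.sdiff_subset hne
    have hSM : ((D ∪ X : Finset V) : Set V) ⊆ M := by
      intro x hx
      rcases Finset.mem_union.mp hx with h | h
      · exact hD h
      · exact (hX h).1
    have hyS : y ∉ D ∪ X := by
      intro h
      rcases Finset.mem_union.mp h with h | h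
      · exact hy.2 h
      · exact hyX h
    have hcard : (D ∪ X).card ≤ D.card + k :=
      le_trans (Finset.card_union_le _ _) (by omega)
    have hfS : FunOn G M y (D ∪ X) := by
      intro z z' hz hz' hzy hzy' hzS hzS' h
      rw [Finset.mem_union, not_or] at hzS hzS'
      exact hf z z' ⟨hz, hzS.1⟩ ⟨hz', hzS'.1⟩ hzy hzy' hzS.2 hzS'.2
        (fun x hx => h x (Finset.mem_union_right _ hx))
    have hD'M : ((insert y (D ∪ X) : Finset V) : Set V) ⊆ M := by
      intro x hx
      rcases Finset.mem_insert.mp hx with h | h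
      · exact h ▸ hy.1
      · exact hSM h
    have hDD' : D ⊆ insert y (D ∪ X) :=
      fun x hx => Finset.mem_insert_of_mem (Finset.mem_union_left _ hx)
    have hc' : (insert y (D ∪ X)).card ≤ D.card + k + 1 :=
      le_trans (Finset.card_insert_le _ _) (by omega)
    by_cases h0 : ∀ z ∈ M, z ≠ y → z ∉ D ∪ X → (∀ x ∈ D ∪ X, ¬ G.Adj x z) → ¬ G.Adj y z
    · by_cases h1 : ∀ z ∈ M, z ≠ y → z ∉ D ∪ X → (∀ x ∈ D ∪ X, G.Adj x z) → G.Adj y z
      · left
        have hSne : (D ∪ X).Nonempty := by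
          by_contra hemp
          rw [Finset.not_nonempty_iff_eq_empty] at hemp
          obtain ⟨z, hz, hzy⟩ := hM.exists_ne y
          exact h0 z hz hzy (by simp [hemp]) (by simp [hemp])
            (h1 z hz hzy (by simp [hemp]) (by simp [hemp]))
        exact ⟨y, hMT hy.1, D ∪ X, hSM.trans hMT, hyS, hcard,
          extend G T M hmod y hy.1 _ hSM hSne hfS h0 h1⟩
      · right
        push Not at h1
        obtain ⟨z, hz, hzy, hzS, hall, hna⟩ := h1
        refine ⟨insert y (D ∪ X), hD'M, hDD', hc', Or.inr ⟨?_, ?_⟩⟩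
        · intro w hw hwD
          rw [Finset.mem_insert, not_or] at hwD
          by_contra hcon
          push Not at hcon
          apply hna
          refine (hfS z w hz hw hzy hwD.1 hzS hwD.2 ?_).mpr (hcon y (Finset.mem_insert_self _ _))
          intro x hx
          exact iff_of_true (hall x hx) (hcon x (Finset.mem_insert_of_mem hx))
        · intro hc
          obtain ⟨d, hd, hdz⟩ := hc z hz (fun e => hzS (Finset.mem_union_left _ e))
          exact hdz (hall d (Finset.mem_union_left _ hd))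
    · right
      push Not at h0
      obtain ⟨z, hz, hzy, hzS, hall, hna⟩ := h0
      refine ⟨insert y (D ∪ X), hD'M, hDD', hc', Or.inl ⟨?_, ?_⟩⟩
      · intro w hw hwD
        rw [Finset.mem_insert, not_or] at hwD
        by_contra hcon
        push Not at hcon
        refine hcon y (Finset.mem_insert_self _ _) ?_
        refine (hfS z w hz hw hzy hwD.1 hzS hwD.2 ?_).mp hna
        intro x hx
        exact iff_of_false (hall x hx) (hcon x (Finset.mem_insert_of_mem hx))
      · intro hc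
        obtain ⟨d, hd, hdz⟩ := hc z hz (fun e => hzS (Finset.mem_union_left _ e))
        exact hall d (Finset.mem_union_left _ hd) hdz
  · left
    rw [Set.not_nonempty_iff_eq_empty, Set.sdiff_eq_empty] at hne
    obtain ⟨y, hy, x, hx, hxy⟩ := hM
    have hSM : ((D.erase y : Finset V) : Set V) ⊆ M := fun a ha => hD (Finset.mem_of_mem_erase ha)
    have hout : ∀ z ∈ M, z ≠ y → z ∈ D.erase y := fun z hz hzy =>
      Finset.mem_erase.mpr ⟨hzy, hne hz⟩
    refine ⟨y, hMT hy, D.erase y, hSM.trans hMT, by simp, ?_, ?_⟩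
    · exact le_trans Finset.card_erase_le (by omega)
    · refine extend G T M hmod y hy _ hSM ⟨x, hout x hx hxy.symm⟩ ?_ ?_ ?_
      · intro z z' hz _ hzy _ hzS
        exact absurd (hout z hz hzy) hzS
      · intro z hz hzy hzS
        exact absurd (hout z hz hzy) hzS
      · intro z hz hzy hzS
        exact absurd (hout z hz hzy) hzS

theorem Dom.mono {V : Type} {G : SimpleGraph V} {M : Set V} {D D' : Finset V} (h : Dom G M D)
    (hD : D ⊆ D') : Dom G M D' := by
  intro z hz hzD
  obtain ⟨d, hd, hdz⟩ := h z hz (fun e => hzD (hD e))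
  exact ⟨d, hD hd, hdz⟩

theorem CoDom.mono {V : Type} {G : SimpleGraph V} {M : Set V} {D D' : Finset V}
    (h : CoDom G M D) (hD : D ⊆ D') : CoDom G M D' := by
  intro z hz hzD
  obtain ⟨d, hd, hdz⟩ := h z hz (fun e => hzD (hD e))
  exact ⟨d, hD hd, hdz⟩

theorem good_of_module {V : Type} (G : SimpleGraph V) (T M : Set V) (hMT : M ⊆ T)
    (hmod : ModIn G T M) (hM : M.Nontrivial) (k : ℕ) (hs : Small G M k) :
    Good G T (3 * k + 2) := by
  rcases round G T M hMT hmod hM k hs ∅ (by simp) with h | ⟨D1, hD1, -, hc1, h1⟩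
  · exact h.mono (by simp; omega)
  rw [Finset.card_empty] at hc1
  rcases round G T M hMT hmod hM k hs D1 hD1 with h | ⟨D2, hD2, h12, hc2, h2⟩
  · exact h.mono (by omega)
  have hboth : Dom G M D2 ∧ CoDom G M D2 := by
    rcases h1 with h1 | h1 <;> rcases h2 with h2 | h2
    · exact absurd h1.1 h2.2
    · exact ⟨h1.1.mono h12, h2.1⟩
    · exact ⟨h2.1, h1.1.mono h12⟩
    · exact absurd h1.1 h2.2
  rcases round G T M hMT hmod hM k hs D2 hD2 with h | ⟨D3, -, -, -, h3⟩
  · exact h.mono (by omega)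
  · rcases h3 with h3 | h3
    · exact absurd hboth.1 h3.2
    · exact absurd hboth.2 h3.2

theorem main (X : ∀ n : ℕ, SimpleGraph (Fin n) → Prop) (hX : IsHereditary X) (k : ℕ)
    (hk : ∀ (n : ℕ) (G : SimpleGraph (Fin n)), X n G → IsPrimeGraph G → graphFun G ≤ k)
    (n : ℕ) (G : SimpleGraph (Fin n)) (hG : X n G) : graphFun G ≤ 3 * k + 2 := by
  rw [graphFun_le_iff]
  intro T _ hT
  by_cases hnt : T.Nontrivial
  · obtain ⟨M, hM, hmin⟩ := Set.Finite.exists_minimal
      (s := {M : Set (Fin n) | M ⊆ T ∧ ModIn G T M ∧ M.Nontrivial}) (Set.toFinite _)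
      ⟨T, subset_rfl, fun v hv hv' => absurd hv hv', hnt⟩
    obtain ⟨hMT, hmod, hMn⟩ := hM
    have := Fintype.ofFinite M
    let e : Fin (Fintype.card M) ≃ M := (Fintype.equivFin M).symm
    let φ : Fin (Fintype.card M) → Fin n := fun i => (e i : Fin n)
    have hφ : Function.Injective φ := fun a b h => e.injective (Subtype.ext h)
    have hr : Set.range φ = M := by
      ext x
      constructor
      · rintro ⟨i, rfl⟩
        exact (e i).2
      · intro hx
        exact ⟨e.symm ⟨x, hx⟩, by simp [φ]⟩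
    have hXH : X _ (G.comap φ) := hX _ _ _ _ ⟨SimpleGraph.Embedding.comap ⟨φ, hφ⟩ G⟩ hG
    have hprime : IsPrimeGraph (G.comap φ) := by
      intro N hN
      by_cases hNn : N.Nontrivial
      · right; left
        have hNM : φ '' N ⊆ M := (Set.image_subset_range φ N).trans hr.subset
        have h1 : φ '' N ∈ {M : Set (Fin n) | M ⊆ T ∧ ModIn G T M ∧ M.Nontrivial} := by
          refine ⟨hNM.trans hMT, ?_, hNn.image hφ⟩
          intro v hv hvN
          by_cases hvM : v ∈ M
          · rw [← hr] at hvM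
            obtain ⟨w, rfl⟩ := hvM
            rcases hN w (fun h => hvN ⟨w, h, rfl⟩) with ha | ha
            · left
              rintro u ⟨u', hu', rfl⟩
              exact ha u' hu'
            · right
              rintro u ⟨u', hu', rfl⟩
              exact ha u' hu'
          · rcases hmod v hv hvM with ha | ha
            · exact Or.inl (fun u hu => ha u (hNM hu))
            · exact Or.inr (fun u hu => ha u (hNM hu))
        have h2 : M ⊆ φ '' N := hmin h1 hNM
        apply Set.eq_univ_of_forall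
        intro w
        obtain ⟨w', hw', hww⟩ := h2 (hr.subset (Set.mem_range_self w))
        exact hφ hww ▸ hw'
      · rw [Set.not_nontrivial_iff] at hNn
        rcases hNn.eq_empty_or_singleton with h | h
        · exact Or.inl h
        · exact Or.inr (Or.inr h)
    have hs : Small G M k := by
      rw [← hr]
      exact small_of_comap G φ hφ k ((graphFun_le_iff _ _).mp (hk _ _ hXH hprime))
    exact good_of_module G T M hMT hmod hMn k hs
  · rw [Set.not_nontrivial_iff] at hnt
    obtain ⟨y, hy⟩ := hT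
    refine ⟨y, hy, ∅, by simp, by simp, by simp, ?_⟩
    intro z z' hz _ hzy
    exact absurd (hnt hz hy) hzy

end Pool.Agent.Work.MP_42f001_co
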